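import Pool.Agent.U69.FE.ZCl

/-!
# MP_db9079_lc: infinite cyclic groups of units of F_p((t)) and their closures

Write `K` for the field `F_p((t))`, let `u ∈ K` be a unit (valuation zero) of infinite multiplicative
order and let `A` be a set between the set of its powers `u ^ n`, `n ≥ 0`, and the closure of the group
`{u ^ n : n ∈ ℤ}`; for instance this group, the semigroup of the `u ^ n`, `n ≥ 0`, or the closure. If
`u = 1 + t` then the closure is the procyclic group `(1 + t) ^ (ℤ_p)`.

Theorem. True arithmetic is reducible to the theory of `K` with a predicate for `A`. Hence `A` is not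
definable with parameters in the valued field `K`, or in any other expansion of `K` by a predicate, if
the theory is recursively enumerable or does not interpret true arithmetic.

Proof. We may write `u = c u₁` with `c ∈ F_p` and `u₁ ∈ 1 + t F_p[[t]]`. The functions
`n ↦ (f u₁ ^ n)_0` (constant coefficient), `f ∈ K`, are exactly the functions from `ℕ` to `F_p` which
are periodic modulo some power of `p`, i.e. all locally constant functions on `ℤ_p` (Mahler). So the
elements `f` of `K` code all clopen subsets `B_f = {a : (f a)_0 = 0}` of the closure (up to the finite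
group of the `c ^ n`), and this coding is definable in the field. Let the zero set of `f₀` be a small
neighbourhood of `u ^ k`. The set of the `a ∈ A` which are in all `B_f` with `1 ∈ B_f` and
`w ∈ A ∩ B_f ⧵ B_(f₀) → u w ∈ B_f` consists of `1, u, ..., u ^ k` (and products with elements of `F_p`):
it is finite, and has more than `k` elements. So there are arbitrarily large finite sets in one
definable family, and the starting result `UniformFiniteness` of this problem applies.
-/

set_option autoImplicit false

namespace Pool.Agent.Results.MP_db9079_lc.CyclicClosures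

open Pool.Agent.Y924.EL
open Pool.Agent.Results.MP_db9079_lc.UniformFiniteness

/-- the closure of the group of the powers `u ^ n`, `n ∈ ℤ`: the `x` which agree with powers of `u`
up to arbitrarily high exponents of `t` -/
def GroupClosure (p : ℕ) [Fact p.Prime] (u : LaurentSeries (ZMod p)) :
    Set (LaurentSeries (ZMod p)) :=
  {x | ∀ M : ℤ, ∃ n : ℤ, ∀ k < M, x.coeff k = (u ^ n).coeff k}

theorem groupClosure_sub (p : ℕ) [Fact p.Prime] (u : LaurentSeries (ZMod p)) (hu : u ≠ 0)
    (hord : u.order = 0) : GroupClosure p u ⊆ Pool.Agent.U69.FE.Cl u := by
  intro x hx M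
  obtain ⟨n, hn⟩ := hx M
  obtain ⟨n', hn'⟩ := Pool.Agent.U69.FE.zpow_close p u hu hord n M
  refine ⟨n', fun k hk => ?_⟩
  have h1 := hn' k hk
  rw [HahnSeries.coeff_sub] at h1 ⊢
  rw [hn k hk]
  exact h1

theorem result (p : ℕ) [Fact p.Prime] (u : LaurentSeries (ZMod p)) (hu : u ≠ 0)
    (hord : u.order = 0) (hinf : ∀ n : ℕ, 0 < n → u ^ n ≠ 1) (A : Set (LaurentSeries (ZMod p)))
    (hA : ∀ n : ℕ, u ^ n ∈ A) (hA' : A ⊆ GroupClosure p u) :
    -- if the theory of the field with the unary predicate `O` (for `O = ValRing p`: of the valued
    -- field) is r.e. or does not interpret true arithmetic then `A` is not definable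
    (∀ O : Set (LaurentSeries (ZMod p)), REPred (InTh p O) ∨ ¬ Arith p O →
      ∀ (φ : Fm) (v : ℕ → LaurentSeries (ZMod p)), Dfn p O φ v ≠ A) ∧
    -- the expansion of the field by `A` interprets true arithmetic
    Arith p A ∧ ¬ REPred (InTh p A) :=
  Pool.Agent.U69.FE.final2 p u hu hinf A hA (hA'.trans (groupClosure_sub p u hu hord))

end Pool.Agent.Results.MP_db9079_lc.CyclicClosures
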