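import Pool.Agent.U69.FE.Asm
import Pool.Agent.U69.FE.VAL
import Pool.Agent.U69.FE.RED
import Pool.Agent.U69.FE.SUR
import Pool.Agent.U69.FE.CONTR
import Pool.Agent.U69.FE.TAY
import Pool.Agent.U69.FE.FIX
import Pool.Agent.U69.FE.ISO
import Pool.Agent.U69.FE.INF
import Pool.Agent.U69.FE.PF

/-!
# MP_db9079_lc: definable field endomorphisms of F_p((t))

Write `K` for the field `F_p((t))`. Its endomorphisms are the substitutions `f (t) ↦ f (s)`, where `s`
has positive valuation; the image has finite index in `K`, and `K` is purely inseparable over it iff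
the endomorphism is a power of the Frobenius composed with an automorphism of `K`.

Theorem. If the theory of `K`, with the valuation or with any other predicate, is recursively
enumerable (or if it does not interpret true arithmetic), then every endomorphism of the field `K` which is
definable with parameters is a power of the Frobenius composed with an automorphism. The expansion of `K` by
any other endomorphism, for instance by `f (t) ↦ f (t ^ m)`, `m` not a power of `p`, is undecidable: true
arithmetic is reducible to its theory.

Proof. No continuity is assumed: `v (σ x) = e v (x)` because 1-units have roots of all orders prime to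
`p`. Dividing by a power of the Frobenius we may suppose that `s = σ t` is not a `p`-th power. If
`e = 1` then `σ` is an automorphism. If `e ≥ 2` then (finite determinacy) there are a local parameter
`x` of `K` and a polynomial `P` over `F_p` with `σ x = P (x)` and `P' ≠ 0`: truncate the power series `s`
at a high order and solve `P (t + w) = s + σ w` by the contraction principle. The definable set
`{y : σ y = P (y)}` contains `x, P (x), P (P (x)), ...`, and these are infinitely many isolated points
of it, as `σ` contracts more strongly than `P`, whose derivative is not `0` there. This contradicts the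
finiteness of the sets of isolated points of definable sets, a starting result (`LocallyFiniteValues`)
of this problem.
-/

set_option autoImplicit false

namespace Pool.Agent.Results.MP_db9079_lc.DefinableEndomorphisms

open Pool.Agent.Y924.EL
open Pool.Agent.Results.MP_db9079_lc.UniformFiniteness
open Pool.Agent.Results.MP_db9079_lc.LocallyFiniteValues

/-- the endomorphism `σ` of the field `F_p((t))` is an automorphism `g` followed by a power of the
Frobenius: `σ x = (g x) ^ (p ^ k)` for all `x` -/
def FrobAut (p : ℕ) [Fact p.Prime]
    (σ : LaurentSeries (ZMod p) →+* LaurentSeries (ZMod p)) : Prop :=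
  ∃ (k : ℕ) (g : LaurentSeries (ZMod p) ≃+* LaurentSeries (ZMod p)), ∀ x, σ x = (g x) ^ (p ^ k)

/-- the graph of the endomorphism `σ`, as a relation between `K ^ 1` and `K ^ 1` -/
def Graph (p : ℕ) [Fact p.Prime] (σ : LaurentSeries (ZMod p) →+* LaurentSeries (ZMod p))
    (x y : Fin 1 → LaurentSeries (ZMod p)) : Prop :=
  y 0 = σ (x 0)

theorem result (p : ℕ) [Fact p.Prime] :
    -- if the theory of the field with the unary predicate `O` (for `O = ValRing p`: of the valued
    -- field) is r.e. or does not interpret true arithmetic then all definable endomorphisms are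
    -- Frobenius powers of automorphisms
    (∀ O : Set (LaurentSeries (ZMod p)), REPred (InTh p O) ∨ ¬ Arith p O →
      ∀ (φ : Fm) (v : ℕ → LaurentSeries (ZMod p))
        (σ : LaurentSeries (ZMod p) →+* LaurentSeries (ZMod p)),
        (∀ x y, DRel p O φ 1 1 v x y ↔ Graph p σ x y) → FrobAut p σ) ∧
    -- the expansions of the field by all other endomorphisms are undecidable
    (∀ σ : LaurentSeries (ZMod p) →+* LaurentSeries (ZMod p), ¬ FrobAut p σ →
      Arith p (Codes p (Graph p σ)) ∧ ¬ REPred (InTh p (Codes p (Graph p σ)))) ∧
    -- for example the expansion by `f (t) ↦ f (t ^ m)`, if `m` is not a power of `p`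
    ∀ m : ℕ, 0 < m → (∀ k : ℕ, m ≠ p ^ k) →
      ∃ σ : LaurentSeries (ZMod p) →+* LaurentSeries (ZMod p),
        (∀ (x : LaurentSeries (ZMod p)) (n : ℤ), (σ x).coeff (m * n) = x.coeff n) ∧
        (∀ (x : LaurentSeries (ZMod p)) (n : ℤ), ¬ (m : ℤ) ∣ n → (σ x).coeff n = 0) ∧
        Arith p (Codes p (Graph p σ)) ∧ ¬ REPred (InTh p (Codes p (Graph p σ))) := by
  have h := Pool.Agent.U69.FE.final Pool.Agent.U69.FE.VAL_ok Pool.Agent.U69.FE.RED_ok
    Pool.Agent.U69.FE.SUR_ok
    (Pool.Agent.U69.FE.FIX_ok Pool.Agent.U69.FE.CONTR_ok Pool.Agent.U69.FE.TAY_ok)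
    (Pool.Agent.U69.FE.ISO_ok Pool.Agent.U69.FE.TAY_ok) Pool.Agent.U69.FE.INF_ok
    Pool.Agent.U69.FE.PF_ok p
  have h2 : ∀ σ : LaurentSeries (ZMod p) →+* LaurentSeries (ZMod p), ¬ FrobAut p σ →
      Arith p (Codes p (Graph p σ)) ∧ ¬ REPred (InTh p (Codes p (Graph p σ))) :=
    fun σ hσ => h.2 σ hσ
  refine ⟨fun O hO φ v σ hφ => h.1 O hO φ v σ hφ, h2, fun m hm hmp => ?_⟩
  refine ⟨Pool.Agent.U69.FE.sub p m hm, Pool.Agent.U69.FE.sub_coeff p m hm,
    Pool.Agent.U69.FE.sub_coeff' p m hm, h2 _ ?_⟩
  exact Pool.Agent.U69.FE.sub_not Pool.Agent.U69.FE.VAL_ok p m hm hmp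

end Pool.Agent.Results.MP_db9079_lc.DefinableEndomorphisms
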