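import Pool.Agent.U69.FE.AsmAU
import Pool.Agent.U69.FE.DER
import Pool.Agent.U69.FE.BAS
import Pool.Agent.U69.FE.GEST
import Pool.Agent.U69.FE.FIXG
import Pool.Agent.U69.FE.EIG
import Pool.Agent.U69.FE.EXG

/-!
# MP_db9079_lc: the automorphisms `1 + t ↦ (1 + t) ^ κ` of F_p((t))

Write `K` for the field `F_p((t))`. The hand-in `DefinableEndomorphisms` shows that, if the theory of
`K` is recursively enumerable, all definable endomorphisms of the field `K` are powers of the Frobenius
composed with automorphisms. Nothing is said there about automorphisms. Automorphisms of finite order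
add nothing essential to `K` (a field `K` with such an automorphism is interpretable in its fixed
field, which is again a Laurent series field). Here are automorphisms of infinite order which do.

Theorem. Let `κ ≥ 2` be prime to `p` and let `g` be the automorphism of `K` with
`g (1 + t) = (1 + t) ^ κ`. Then true arithmetic is reducible to the theory of `(K, g)`, and `g` is not
definable with parameters in the valued field `K`, or in any other expansion of `K` by a predicate, if
the theory is recursively enumerable or does not interpret true arithmetic.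

Proof. Let `u = 1 + t`. (1) The fixed field of `g` is `F_p`: let `h` be fixed, and let `G` be a power of `g`
with `G u = u ^ (1 + p ^ m b)`, `p ∤ b`, `m ≥ 2`. Write `h = ∑ u ^ i a_i ^ (p ^ m)`, `i < p ^ m`; then
`u ^ (i b) G (a_i) = a_i`. If `a_i ≠ 0` and `p ∤ i` the logarithmic derivative `η` of `a_i` (with respect to
`u d/du`) has at most a simple pole and `G (η) - η = - i b`, but `G` is close to the identity: a
contradiction. So `h` is a `p`-th power, and one concludes by descent. (2) If `x` is a 1-unit with
`g x = x ^ κ` then its logarithmic derivative is fixed by `g`, so it is a constant `c`, and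
`x = u ^ c y ^ p`; by iteration `x` is in the closure of the powers of `u`. (3) Hence the set of the
`x ^ (p - 1)`, `x ≠ 0`, `g x = x ^ κ`, which is definable in `(K, g)`, is between the set of the powers of
`u ^ (p - 1)` and its closure, and the method of `CyclicClosures` applies.
-/

set_option autoImplicit false

namespace Pool.Agent.Results.MP_db9079_lc.EigenAutomorphisms

open Pool.Agent.Y924.EL
open Pool.Agent.Results.MP_db9079_lc.UniformFiniteness
open Pool.Agent.Results.MP_db9079_lc.LocallyFiniteValues

/-- the element `1 + t` of `F_p((t))` -/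
noncomputable def onePlusT (p : ℕ) [Fact p.Prime] : LaurentSeries (ZMod p) :=
  1 + HahnSeries.single (1 : ℤ) (1 : ZMod p)

/-- the graph of the automorphism `g`, as a relation between `K ^ 1` and `K ^ 1` -/
def Graph (p : ℕ) [Fact p.Prime] (g : LaurentSeries (ZMod p) ≃+* LaurentSeries (ZMod p))
    (x y : Fin 1 → LaurentSeries (ZMod p)) : Prop :=
  y 0 = g (x 0)

theorem result (p : ℕ) [Fact p.Prime] (κ : ℕ) (hκ : 2 ≤ κ) (hpκ : ¬ p ∣ κ) :
    -- there is an automorphism of the field which maps `1 + t` to its `κ`-th power
    (∃ g : LaurentSeries (ZMod p) ≃+* LaurentSeries (ZMod p),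
      g (onePlusT p) = (onePlusT p) ^ κ) ∧
    ∀ g : LaurentSeries (ZMod p) ≃+* LaurentSeries (ZMod p), g (onePlusT p) = (onePlusT p) ^ κ →
      -- if the theory of the field with the unary predicate `O` (for `O = ValRing p`: of the valued
      -- field) is r.e. or does not interpret true arithmetic then `g` is not definable
      (∀ O : Set (LaurentSeries (ZMod p)), REPred (InTh p O) ∨ ¬ Arith p O →
        ∀ (φ : Fm) (v : ℕ → LaurentSeries (ZMod p)),
          ¬ ∀ x y, DRel p O φ 1 1 v x y ↔ Graph p g x y) ∧
      -- the expansion of the field by `g` interprets true arithmetic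
      Arith p (Codes p (Graph p g)) ∧ ¬ REPred (InTh p (Codes p (Graph p g))) := by
  refine ⟨Pool.Agent.U69.FE.EXG_ok p κ hpκ, fun g hg => ?_⟩
  exact Pool.Agent.U69.FE.finalAU
    (Pool.Agent.U69.FE.EIG_ok Pool.Agent.U69.FE.DER_ok Pool.Agent.U69.FE.BAS_ok
      (Pool.Agent.U69.FE.FIXG_ok Pool.Agent.U69.FE.DER_ok Pool.Agent.U69.FE.BAS_ok
        Pool.Agent.U69.FE.GEST_ok)) p κ hκ hpκ g hg

end Pool.Agent.Results.MP_db9079_lc.EigenAutomorphisms
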