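import Pool.Agent.U853.SR.ModExp
import Pool.Agent.U853.SR.Img

/-!
# MP_db9079_lc: closed subgroups of F_p((t)) with infinitely many multipliers

Write `K` for the field `F_p((t))`, and `M(V) = {a : a V ⊆ V}` for the ring of the multipliers of a
subgroup `V` of the additive group of `K`.

(1) Let `V` be closed and `M(V)` infinite. The expansion `(K, V)` is tame (uniform finiteness, and all
definable scattered sets are finite) if and only if the valued field is tame and `M(V)` is not
discrete; if `M(V)` is discrete then true arithmetic is reducible to the theory of `(K, V)`.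

(2) If `V` is closed and `M(V)` is not discrete then `V` is the sum of finitely many groups `L z` and
`O_L z`, where `L` is a subfield `σ(K)` with `[K : L]` finite, and `O_L = σ(F_p[[t]])`.

(3) If `V` is definable in `(K, P)` and true arithmetic is not reducible to the theory of `(K, P)` then
`M(V)` is finite or not discrete.

(4) Example: the group of the series with exponents in a set `E` of integers, where `E + k ⊆ E` for some
`k ≠ 0`. Here `M(V)` is discrete iff there is no such `k > 0`.

(5) If `(K, X)` is tame, `X` any subset of `K`, then so is `(K, σ(X))` for each endomorphism `σ` of the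
field `K`.

Proof of (1), (2): let `s` be a multiplier of positive order `e`, and `σ` the substitution `t ↦ s`. For
each `i < e` look at the orders `≡ i` modulo `e` of the elements of `V`. If they are bounded below, let
`z_i` be an element of `V` with the smallest one; if not, then by compactness there is `z_i` with
`L z_i ⊆ V`. As elements with different orders modulo `e` are a basis of `K` over `L`, (2) follows. So
`V` is definable in the structure with the domain `K ^ e` with which `K` is interpreted in itself by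
`K = σ(K) + ... + σ(K) t ^ (e - 1)`, and the finite definable subsets of `K ^ e` have bounded sizes in
definable families, by the starting result `LocallyFiniteValues`.
-/

set_option autoImplicit false

namespace Pool.Agent.Results.MP_db9079_lc.MultiplierRings

open Pool.Agent.Y924.EL
open Pool.Agent.Results.MP_db9079_lc.UniformFiniteness
open Function

variable (p : ℕ) [Fact p.Prime]

/-- the multipliers of the group `V` -/
def Mult (V : AddSubgroup (LaurentSeries (ZMod p))) : Set (LaurentSeries (ZMod p)) :=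
  {a | ∀ x ∈ V, a * x ∈ V}

/-- `V` is the sum of finitely many groups `L z` and `O_L z`, where `L` is the image of the field
`K = F_p((t))` under an endomorphism `σ` such that `[K : L]` is finite, and `O_L` that of
`F_p[[t]]` -/
def FinSum (V : AddSubgroup (LaurentSeries (ZMod p))) : Prop :=
  ∃ (σ : LaurentSeries (ZMod p) →+* LaurentSeries (ZMod p)) (n : ℕ)
    (z : Fin n → LaurentSeries (ZMod p)) (B : Set (Fin n)),
    Module.Finite σ.fieldRange (LaurentSeries (ZMod p)) ∧
    ∀ x, x ∈ V ↔ ∃ c : Fin n → LaurentSeries (ZMod p),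
      x = ∑ i, σ (c i) * z i ∧ ∀ i ∈ B, c i ∈ ValRing p

/-- the group of the series all of whose exponents are in `E` -/
def Supp (E : Set ℤ) : AddSubgroup (LaurentSeries (ZMod p)) where
  carrier := {x | ∀ n ∉ E, x.coeff n = 0}
  zero_mem' := fun _ _ => rfl
  add_mem' := by
    intro x y hx hy n hn
    rw [HahnSeries.coeff_add, hx n hn, hy n hn, add_zero]
  neg_mem' := by
    intro x hx n hn
    rw [HahnSeries.coeff_neg, hx n hn, neg_zero]

variable {p}

/-- the multipliers as a ring -/
def multR (V : AddSubgroup (LaurentSeries (ZMod p))) : Subring (LaurentSeries (ZMod p)) where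
  carrier := Mult p V
  zero_mem' := fun x _ => by rw [zero_mul]; exact V.zero_mem
  one_mem' := fun x hx => by rwa [one_mul]
  add_mem' := fun {a b} ha hb x hx => by rw [add_mul]; exact V.add_mem (ha x hx) (hb x hx)
  neg_mem' := fun {a} ha x hx => by rw [neg_mul]; exact V.neg_mem (ha x hx)
  mul_mem' := fun {a b} ha hb x hx => by rw [mul_assoc]; exact ha _ (hb x hx)

open Pool.Agent.U853.SR in
lemma cl_of_closed (S : Set (LaurentSeries (ZMod p))) (h : ClosedSet p S) : Cl S ⊆ S := by
  intro x hx
  by_contra hcon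
  obtain ⟨b, hb, h1⟩ := h x hcon
  obtain ⟨s, hs, h2⟩ := hx b.order
  refine h1 s hs ⟨b⁻¹ * (s - x), ?_, ?_⟩
  · rw [val_iff]
    have h3 := D_mul (inv_mem hb) (D_neg h2)
    rwa [neg_add_cancel, neg_sub] at h3
  · rw [← mul_assoc, mul_inv_cancel₀ hb, one_mul, add_sub_cancel]

open Pool.Agent.U853.SR in
lemma discr_or (R : Subring (LaurentSeries (ZMod p))) :
    Discr p (R : Set (LaurentSeries (ZMod p))) ∨ ∃ x ∈ R, x ≠ 0 ∧ x ∈ D p 1 := by
  by_cases h : ∃ x ∈ R, x ≠ 0 ∧ x ∈ D p 1
  · exact Or.inr h
  · left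
    intro x hx
    refine ⟨tt p, tt_ne_zero, fun y hy => ?_⟩
    rintro ⟨z, hz, h1⟩
    by_contra hne
    refine h ⟨y - x, R.sub_mem hy hx, sub_ne_zero.2 hne, ?_⟩
    have h2 := D_mul (tt_mem (p := p) 1) ((val_iff z).1 hz)
    rw [pow_one, add_zero] at h2
    have h3 : y - x = tt p * z := by rw [← h1]; ring
    rw [h3]
    exact_mod_cast h2

open Pool.Agent.U853.SR in
lemma not_discr (R : Subring (LaurentSeries (ZMod p))) (h : ∃ x ∈ R, x ≠ 0 ∧ x ∈ D p 1) :
    ¬ Discr p (R : Set (LaurentSeries (ZMod p))) := by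
  intro hd
  obtain ⟨x, hx, hx0, hx1⟩ := h
  obtain ⟨b, hb, h1⟩ := hd 0 R.zero_mem
  obtain ⟨m, hm⟩ : ∃ m : ℕ, b.order ≤ m := ⟨b.order.toNat, by omega⟩
  have h2 := D_mul (inv_mem hb) (pow_mem_D hx1 m)
  have h3 := h1 (x ^ m) (R.pow_mem hx m) ⟨b⁻¹ * x ^ m, ?_, ?_⟩
  · exact pow_ne_zero m hx0 h3
  · rw [val_iff]
    exact D_mono (by omega) h2
  · rw [zero_add, ← mul_assoc, mul_inv_cancel₀ hb, one_mul]

/-- the first renaming -/
def r1 (n : ℕ) : ℕ := if n = 0 then 1 else n + 2

/-- the second renaming -/
def r2 (n : ℕ) : ℕ := n + 2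

lemma r1_inj : Injective r1 := by
  intro m n h
  unfold r1 at h
  split_ifs at h <;> omega

lemma r2_inj : Injective r2 := by
  intro m n h
  unfold r2 at h
  omega

/-- the formula for the multipliers -/
def mulF (φ : Fm) : Fm :=
  .neg (.ex 1 (.and (Pool.Agent.Y924.UF.ren r1 φ) (.neg (.ex 2 (.and (.mul 0 1 2)
    (Pool.Agent.Y924.UF.ren r2 φ))))))

lemma dfn_mulF (P : Set (LaurentSeries (ZMod p))) (φ : Fm) (v : ℕ → LaurentSeries (ZMod p))
    (V : AddSubgroup (LaurentSeries (ZMod p))) (h : Dfn p P φ v = (V : Set _)) :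
    Dfn p P (mulF φ) (fun n => v (n - 2)) = Mult p V := by
  have hV : ∀ x, x ∈ V ↔ Sat P φ (update v 0 x) := fun x => by
    rw [← SetLike.mem_coe, ← h]
    rfl
  ext a
  show Sat P (mulF φ) (update (fun n => v (n - 2)) 0 a) ↔ ∀ x ∈ V, a * x ∈ V
  have e1 : ∀ x : LaurentSeries (ZMod p),
      (update (update (fun n => v (n - 2)) 0 a) 1 x) ∘ r1 = update v 0 x := by
    intro x
    funext n
    rcases eq_or_ne n 0 with rfl | hn
    · simp [r1]
    · have h1 : r1 n = n + 2 := if_neg hn
      simp [h1, hn]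
  have e2 : ∀ x y : LaurentSeries (ZMod p),
      (update (update (update (fun n => v (n - 2)) 0 a) 1 x) 2 y) ∘ r2 = update v 0 y := by
    intro x y
    funext n
    rcases eq_or_ne n 0 with rfl | hn
    · simp [r2]
    · simp [r2, hn]
  have e3 : ∀ x y : LaurentSeries (ZMod p),
      update (update (update (fun n => v (n - 2)) 0 a) 1 x) 2 y 0 = a := fun x y => by
    rw [update_of_ne (by omega), update_of_ne (by omega), update_self]
  have e4 : ∀ x y : LaurentSeries (ZMod p),
      update (update (update (fun n => v (n - 2)) 0 a) 1 x) 2 y 1 = x := fun x y => by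
    rw [update_of_ne (by omega), update_self]
  have e5 : ∀ x y : LaurentSeries (ZMod p),
      update (update (update (fun n => v (n - 2)) 0 a) 1 x) 2 y 2 = y := fun x y => by
    rw [update_self]
  simp only [mulF, Sat, Pool.Agent.Y410.UF.sat_ren P r1_inj, Pool.Agent.Y410.UF.sat_ren P r2_inj,
    e1, e2, e3, e4, e5, ← hV]
  push Not
  refine forall₂_congr fun x _ => ?_
  constructor
  · rintro ⟨y, rfl, h2⟩
    exact h2
  · intro h2
    exact ⟨_, rfl, h2⟩

lemma finite_of_discr (P : Set (LaurentSeries (ZMod p))) (hT : Tame p P) (φ : Fm)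
    (v : ℕ → LaurentSeries (ZMod p)) (V : AddSubgroup (LaurentSeries (ZMod p)))
    (h : Dfn p P φ v = (V : Set _)) (hd : Discr p (Mult p V)) : (Mult p V).Finite := by
  rw [← dfn_mulF P φ v V h]
  refine hT.2 _ _ ?_
  rw [dfn_mulF P φ v V h]
  exact scattered_of_discr p _ hd

lemma dfn_self (V : AddSubgroup (LaurentSeries (ZMod p))) :
    Dfn p (V : Set (LaurentSeries (ZMod p))) (.val 0) 0 = (V : Set _) := by
  ext x
  simp [Dfn, Sat]

open Pool.Agent.U853.SR in
lemma main (V : AddSubgroup (LaurentSeries (ZMod p)))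
    (hV : ClosedSet p (V : Set (LaurentSeries (ZMod p)))) (hM : (Mult p V).Infinite) :
    (Tame p (V : Set (LaurentSeries (ZMod p))) ↔
      Tame p (ValRing p) ∧ ¬ Discr p (Mult p V)) ∧
    (Discr p (Mult p V) → Arith p (V : Set (LaurentSeries (ZMod p))) ∧
      ¬ REPred (InTh p (V : Set (LaurentSeries (ZMod p))))) := by
  have h0 : Tame p (V : Set (LaurentSeries (ZMod p))) → ¬ Discr p (Mult p V) := fun hT hd =>
    hM (finite_of_discr _ hT _ _ V (dfn_self V) hd)
  refine ⟨⟨fun hT => ⟨tame_val _ hT, h0 hT⟩, ?_⟩, fun hd => ?_⟩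
  · rintro ⟨hT, hd⟩
    obtain ⟨s, hs, hs0, hs1⟩ := (discr_or (multR V)).resolve_left hd
    exact tame_module V (cl_of_closed _ hV) s hs0 hs1 hs hT
  · have h1 : ¬ Tame p (V : Set (LaurentSeries (ZMod p))) := fun hT => h0 hT hd
    exact ⟨(dichotomy p _).resolve_left h1, fun h => h1 (tame p _ h)⟩

open Pool.Agent.U853.SR in
lemma finSum_of (V : AddSubgroup (LaurentSeries (ZMod p)))
    (hV : ClosedSet p (V : Set (LaurentSeries (ZMod p)))) (hd : ¬ Discr p (Mult p V)) :
    FinSum p V := by
  classical
  obtain ⟨s, hs, hs0, hs1⟩ := (discr_or (multR V)).resolve_left hd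
  obtain ⟨τ, hτt, hτO, hτ⟩ := exists_tau hs0 hs1
  have hso := (mem_D_iff hs0).1 hs1
  obtain ⟨e, hse⟩ : ∃ e : ℕ, s.order = e := Int.eq_ofNat_of_zero_le (by omega)
  have he : 1 ≤ e := by omega
  have hord : ∀ x : LaurentSeries (ZMod p), x ≠ 0 → (τ x).order = e * x.order := fun x hx =>
    order_tau hs0 hse τ hτt hτO hx
  have hdec := decomp hs0 hse he τ hτt hτ
  have H : Hyp V s e τ := ⟨cl_of_closed _ hV, hs0, hse, he, hs, hτt, hord, hτ⟩
  obtain ⟨z, ty, hst⟩ := H.struct hdec
  refine ⟨τ, e, fun i => if ty i = 0 then 0 else z i, {i | ty i = 1}, ?_, fun x => ?_⟩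
  · have hspan : Submodule.span τ.fieldRange (Set.range fun i : Fin e => tt p ^ (i : ℕ)) = ⊤ := by
      rw [eq_top_iff]
      intro y _
      obtain ⟨a, ha⟩ := hdec y
      rw [ha, ← Fin.sum_univ_eq_sum_range (fun i => τ (a i) * tt p ^ i)]
      refine Submodule.sum_mem _ fun i _ => ?_
      have h1 : τ (a i) * tt p ^ (i : ℕ) =
          (⟨τ (a i), ⟨a i, rfl⟩⟩ : τ.fieldRange) • (tt p ^ (i : ℕ)) := rfl
      rw [h1]
      exact Submodule.smul_mem _ _ (Submodule.subset_span ⟨i, rfl⟩)
    exact ⟨⟨Finset.univ.image fun i : Fin e => tt p ^ (i : ℕ), by simpa using hspan⟩⟩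
  · rw [hst]
    constructor
    · rintro ⟨c, h1, h2⟩
      refine ⟨fun i => c i, ?_, fun i hi => ?_⟩
      · rw [h1, ← Fin.sum_univ_eq_sum_range (fun i => τ (c i) * z i)]
        refine Finset.sum_congr rfl fun i _ => ?_
        by_cases h3 : ty i = 0
        · have h4 := (h2 i (Finset.mem_range.2 i.2)).1 h3
          simp [h3, h4]
        · simp only [h3, if_false]
      · rw [val_iff]
        exact (h2 i (Finset.mem_range.2 i.2)).2 hi
    · rintro ⟨c, h1, h2⟩
      refine ⟨fun i => if h : i < e then (if ty i = 0 then 0 else c ⟨i, h⟩) else 0, ?_,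
        fun i hi => ⟨fun h3 => ?_, fun h3 => ?_⟩⟩
      · rw [h1, ← Fin.sum_univ_eq_sum_range (fun i =>
          τ (if h : i < e then (if ty i = 0 then 0 else c ⟨i, h⟩) else 0) * z i)]
        refine Finset.sum_congr rfl fun i _ => ?_
        simp only [i.2, dif_pos]
        by_cases h3 : ty i = 0
        · simp [h3]
        · simp [h3]
      · simp [h3]
      · have h4 := Finset.mem_range.1 hi
        have h5 := h2 ⟨i, h4⟩ h3
        rw [val_iff] at h5
        have h6 : ty i ≠ 0 := by omega
        simpa [h4, h6] using h5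

lemma supp_closed (E : Set ℤ) : ClosedSet p (Supp p E : Set (LaurentSeries (ZMod p))) := by
  intro x hx
  have h1 : ∃ n ∉ E, x.coeff n ≠ 0 := by
    by_contra hcon
    push Not at hcon
    exact hx hcon
  obtain ⟨n, hn, hxn⟩ := h1
  refine ⟨HahnSeries.single (n + 1) (1 : ZMod p), HahnSeries.single_ne_zero one_ne_zero,
    fun y hy => ?_⟩
  rintro ⟨z, hz, h2⟩
  have h3 : HahnSeries.single (n + 1) (1 : ZMod p) ∈ Pool.Agent.U853.SR.D p (n + 1) := by
    intro k hk
    exact HahnSeries.coeff_single_of_ne (by omega)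
  have h4 := Pool.Agent.U853.SR.D_mul h3 ((Pool.Agent.U853.SR.val_iff z).1 hz)
  have h5 := h4 n (by omega)
  apply hxn
  have h6 := hy n hn
  rw [← h2, HahnSeries.coeff_add, h5, add_zero] at h6
  exact h6

lemma single_mult {E : Set ℤ} {k : ℤ} (hk : ∀ n ∈ E, n + k ∈ E) :
    HahnSeries.single k (1 : ZMod p) ∈ multR (Supp p E) := by
  intro x hx n hn
  have h1 := HahnSeries.coeff_single_mul_add (r := (1 : ZMod p)) (x := x) (a := n - k) (b := k)
  rw [sub_add_cancel, one_mul] at h1
  rw [h1]
  refine hx _ fun h2 => hn ?_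
  have := hk _ h2
  rwa [sub_add_cancel] at this

lemma mult_infinite {E : Set ℤ} {k : ℤ} (hk0 : k ≠ 0) (hk : ∀ n ∈ E, n + k ∈ E) :
    (Mult p (Supp p E)).Infinite := by
  have h1 := single_mult (p := p) hk
  refine Set.infinite_of_injective_forall_mem (f := fun j : ℕ =>
    HahnSeries.single k (1 : ZMod p) ^ j) ?_ fun j => (multR (Supp p E)).pow_mem h1 j
  intro i j hij
  have h2 := congrArg HahnSeries.order hij
  simp only [HahnSeries.order_pow, HahnSeries.order_single (one_ne_zero (α := ZMod p)),
    nsmul_eq_mul] at h2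
  exact_mod_cast mul_right_cancel₀ hk0 h2

open Pool.Agent.U853.SR in
lemma supp_discr {E : Set ℤ} (h : ¬ ∃ k > 0, ∀ n ∈ E, n + k ∈ E) :
    Discr p (Mult p (Supp p E)) := by
  refine (discr_or (multR (Supp p E))).resolve_right ?_
  rintro ⟨a, ha, ha0, ha1⟩
  refine h ⟨a.order, ?_, fun n hn => ?_⟩
  · have := (mem_D_iff ha0).1 ha1
    omega
  · by_contra hcon
    have h1 : HahnSeries.single n (1 : ZMod p) ∈ Supp p E := by
      intro m hm
      exact HahnSeries.coeff_single_of_ne (fun h2 => hm (h2 ▸ hn))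
    have h2 := ha _ h1 (n + a.order) hcon
    have h3 := HahnSeries.coeff_mul_single_add (r := (1 : ZMod p)) (x := a) (a := a.order) (b := n)
    rw [add_comm a.order n, h2, mul_one] at h3
    exact HahnSeries.coeff_order_eq_zero.not.2 ha0 h3.symm

theorem result (p : ℕ) [Fact p.Prime] :
    -- (1) expansions by closed groups with infinitely many multipliers
    (∀ V : AddSubgroup (LaurentSeries (ZMod p)), ClosedSet p (V : Set (LaurentSeries (ZMod p))) →
      (Mult p V).Infinite →
      (Tame p (V : Set (LaurentSeries (ZMod p))) ↔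
        Tame p (ValRing p) ∧ ¬ Discr p (Mult p V)) ∧
      (Discr p (Mult p V) → Arith p (V : Set (LaurentSeries (ZMod p))) ∧
        ¬ REPred (InTh p (V : Set (LaurentSeries (ZMod p)))))) ∧
    -- (2) the structure of these groups if there are arbitrarily small multipliers
    (∀ V : AddSubgroup (LaurentSeries (ZMod p)), ClosedSet p (V : Set (LaurentSeries (ZMod p))) →
      ¬ Discr p (Mult p V) → FinSum p V) ∧
    -- (3) definable groups: if the theory of the field with the unary predicate `P` (for
    -- `P = ValRing p`: of the valued field) is r.e., or true arithmetic is not reducible to it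
    (∀ P : Set (LaurentSeries (ZMod p)), REPred (InTh p P) ∨ ¬ Arith p P →
      ∀ (φ : Fm) (v : ℕ → LaurentSeries (ZMod p)) (V : AddSubgroup (LaurentSeries (ZMod p))),
        Dfn p P φ v = (V : Set (LaurentSeries (ZMod p))) →
        (Mult p V).Finite ∨ ¬ Discr p (Mult p V)) ∧
    -- (4) the groups of the series with exponents in a set which is mapped into itself by a
    -- translation
    (∀ E : Set ℤ, (∃ k ≠ 0, ∀ n ∈ E, n + k ∈ E) →
      ((∃ k > 0, ∀ n ∈ E, n + k ∈ E) →
        (Tame p (Supp p E : Set (LaurentSeries (ZMod p))) ↔ Tame p (ValRing p))) ∧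
      ((¬ ∃ k > 0, ∀ n ∈ E, n + k ∈ E) →
        Arith p (Supp p E : Set (LaurentSeries (ZMod p))) ∧
        ¬ REPred (InTh p (Supp p E : Set (LaurentSeries (ZMod p)))))) ∧
    -- (5) the images of tame predicates under the endomorphisms of the field are tame
    (∀ (σ : LaurentSeries (ZMod p) →+* LaurentSeries (ZMod p)) (X : Set (LaurentSeries (ZMod p))),
      Tame p X → Tame p (σ '' X)) := by
  refine ⟨main, finSum_of, fun P hP φ v V hφ => ?_, fun E hE => ?_,
    fun σ X h => Pool.Agent.U853.SR.tame_image σ X h⟩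
  · have hT : Tame p P := hP.elim (tame p P) fun h => (dichotomy p P).resolve_right h
    by_cases hd : Discr p (Mult p V)
    · exact Or.inl (finite_of_discr P hT φ v V hφ hd)
    · exact Or.inr hd
  · obtain ⟨k, hk0, hk⟩ := hE
    obtain ⟨h1, h2⟩ := main (Supp p E) (supp_closed E) (mult_infinite hk0 hk)
    refine ⟨?_, fun h => h2 (supp_discr h)⟩
    rintro ⟨j, hj, hj'⟩
    rw [h1]
    refine and_iff_left (not_discr (multR (Supp p E)) ⟨_, single_mult hj', ?_, ?_⟩)
    · exact HahnSeries.single_ne_zero one_ne_zero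
    · intro m hm
      exact HahnSeries.coeff_single_of_ne (by omega)

end Pool.Agent.Results.MP_db9079_lc.MultiplierRings
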